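import Pool.Agent.V1197.AS.Gap

set_option autoImplicit false

/-!
# Ideal achievement sets with the Baire property are meager or comeager
-/

namespace Pool.Agent.Results.MP_dc2775_an.MeagerOrComeager

open Set Filter Topology
open Pool.Agent.V1197.AS (Ps SubSum FinInv EW RM ND)

/-- An ideal on `ℕ` containing all finite sets: closed under finite unions and subsets, does not
contain `ℕ`, contains the finite sets. -/
structure IsIdeal (I : Set (Set ℕ)) : Prop where
  union_mem : ∀ A ∈ I, ∀ B ∈ I, A ∪ B ∈ I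
  subset_mem : ∀ A ∈ I, ∀ B, B ⊆ A → B ∈ I
  univ_notMem : univ ∉ I
  finite_mem : ∀ A : Set ℕ, A.Finite → A ∈ I

/-- `∑_{n ∈ A} x_n` converges to `s` (convergence of the partial sums, in the given order) -/
def HasSubSum (x : ℕ → ℝ) (A : Set ℕ) (s : ℝ) : Prop :=
  Tendsto (fun n => ∑ i ∈ Finset.range n, A.indicator x i) atTop (𝓝 s)

/-- the achievement set `A(x_n)` -/
def achievementSet (x : ℕ → ℝ) : Set ℝ := {s | ∃ A : Set ℕ, HasSubSum x A s}

/-- the ideal achievement set `A_I(x_n)` -/
def idealAchievementSet (I : Set (Set ℕ)) (x : ℕ → ℝ) : Set ℝ := {s | ∃ A ∈ I, HasSubSum x A s}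

/-! ### Translation -/

theorem EW_translate {X S : Set ℝ} (h : EW X S) (t : ℝ) :
    EW ((fun x => x + t) ⁻¹' X) ((fun x => x + t) ⁻¹' S) := by
  intro V hV ⟨v, hv⟩ hRM
  have h1 := hRM.translate (-t)
  have hX : (fun x : ℝ => x + -t) ⁻¹' ((fun x => x + t) ⁻¹' X) = X := by
    ext z; simp
  rw [hX] at h1
  have hc : Continuous fun z : ℝ => z + -t := by fun_prop
  have h2 := h ((fun z => z + -t) ⁻¹' V) (hV.preimage hc) ⟨v + t, by simpa using hv.1, hv.2⟩
    (h1.mono fun z hz => ⟨by
      have := hz.1.1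
      simpa using this, hz.1.2⟩)
  exact h2.translate t

/-- reduction to non-negative terms -/
theorem EW_abs {x : ℕ → ℝ} (hs : Summable fun i => |x i|) {J : Set (Set ℕ)} (hJ : FinInv J) :
    EW (Pool.Agent.V1197.AS.AS univ x) (Pool.Agent.V1197.AS.AS J x) := by
  classical
  set y : ℕ → ℝ := fun i => |x i| with hy
  set Neg : Set ℕ := {i | x i < 0} with hNeg
  set m : ℝ := ∑' i, Neg.indicator y i with hm
  have hy0 : ∀ i, 0 ≤ y i := fun i => abs_nonneg _
  -- `A ↦ symmDiff A Neg`
  have hPs : ∀ (A : Set ℕ) (n : ℕ), Ps y (symmDiff A Neg) n = Ps x A n + Ps y Neg n := by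
    intro A n
    unfold Pool.Agent.V1197.AS.Ps
    rw [← Finset.sum_add_distrib]
    refine Finset.sum_congr rfl fun i _ => ?_
    by_cases h1 : i ∈ A <;> by_cases h2 : x i < 0
    · have h3 : i ∉ symmDiff A Neg := by
        rw [mem_symmDiff]; simp [h1, hNeg, h2]
      rw [indicator_of_notMem h3, indicator_of_mem h1, indicator_of_mem (show i ∈ Neg from h2)]
      simp only [hy, abs_of_neg h2]; ring
    · have h3 : i ∈ symmDiff A Neg := by
        rw [mem_symmDiff]; exact Or.inl ⟨h1, h2⟩
      rw [indicator_of_mem h3, indicator_of_mem h1, indicator_of_notMem (show i ∉ Neg from h2)]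
      simp only [hy, abs_of_nonneg (not_lt.1 h2)]; ring
    · have h3 : i ∈ symmDiff A Neg := by
        rw [mem_symmDiff]; exact Or.inr ⟨h2, h1⟩
      rw [indicator_of_mem h3, indicator_of_notMem h1, indicator_of_mem (show i ∈ Neg from h2)]
      ring
    · have h3 : i ∉ symmDiff A Neg := by
        rw [mem_symmDiff]; simp [h1, hNeg, not_lt.1 h2]
      rw [indicator_of_notMem h3, indicator_of_notMem h1, indicator_of_notMem (show i ∉ Neg from h2)]
      ring
  have hlim : Tendsto (Ps y Neg) atTop (𝓝 m) := Pool.Agent.V1197.AS.subSum_tsum hy0 hs Neg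
  have hsub : ∀ (A : Set ℕ) (s : ℝ), SubSum x A s ↔ SubSum y (symmDiff A Neg) (s + m) := by
    intro A s
    unfold Pool.Agent.V1197.AS.SubSum
    constructor
    · intro h
      refine (h.add hlim).congr fun n => ?_
      rw [hPs]
    · intro h
      have h1 := h.sub hlim
      rw [add_sub_cancel_right] at h1
      refine h1.congr fun n => ?_
      rw [hPs]
      ring
  have hset : ∀ K : Set (Set ℕ), Pool.Agent.V1197.AS.AS K x
      = (fun s => s + m) ⁻¹' (Pool.Agent.V1197.AS.AS {A | symmDiff A Neg ∈ K} y) := by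
    intro K
    ext s
    constructor
    · rintro ⟨A, hA, hAs⟩
      refine ⟨symmDiff A Neg, ?_, (hsub A s).1 hAs⟩
      change symmDiff (symmDiff A Neg) Neg ∈ K
      rwa [symmDiff_symmDiff_cancel_right]
    · rintro ⟨A, hA, hAs⟩
      refine ⟨symmDiff A Neg, hA, (hsub _ s).2 ?_⟩
      rwa [symmDiff_symmDiff_cancel_right]
  have huniv : {A : Set ℕ | symmDiff A Neg ∈ (univ : Set (Set ℕ))} = univ := by
    ext A; simp
  rw [hset univ, hset J, huniv]
  refine EW_translate (Pool.Agent.V1197.AS.EW_nonneg hy0 hs ?_) m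
  intro A hA B ⟨N, hN⟩
  refine hJ _ hA _ ⟨N, fun i hi => ?_⟩
  rw [mem_symmDiff, mem_symmDiff, hN i hi]

/-- Let `I` be an ideal on `ℕ` containing the finite sets and let `∑ x_n` be a convergent real
series. If the ideal achievement set `A_I(x_n)` has the Baire property in the space `A(x_n)`
(the achievement set with the topology inherited from `ℝ`), then it is meager or comeager in
`A(x_n)`. -/
theorem result (I : Set (Set ℕ)) (hI : IsIdeal I) (x : ℕ → ℝ)
    (hx : ∃ L, Tendsto (fun n => ∑ i ∈ Finset.range n, x i) atTop (𝓝 L))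
    (hB : BaireMeasurableSet
      (Subtype.val ⁻¹' (idealAchievementSet I x) : Set (achievementSet x))) :
    IsMeagre (Subtype.val ⁻¹' (idealAchievementSet I x) : Set (achievementSet x)) ∨
      (Subtype.val ⁻¹' (idealAchievementSet I x) : Set (achievementSet x)) ∈
        residual (achievementSet x) := by
  obtain ⟨Lx, hL⟩ := hx
  have hJ : FinInv I := by
    intro A hA B ⟨N, hN⟩
    have h1 : A ∪ {i | i < N} ∈ I := hI.union_mem A hA _ (hI.finite_mem _ (finite_lt_nat N))
    refine hI.subset_mem _ h1 _ fun i hi => ?_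
    by_cases h : N ≤ i
    · exact Or.inl ((hN i h).2 hi)
    · exact Or.inr (not_le.1 h)
  have hX : achievementSet x = Pool.Agent.V1197.AS.AS univ x := by
    ext s
    constructor
    · rintro ⟨A, hA⟩
      exact ⟨A, mem_univ _, hA⟩
    · rintro ⟨A, _, hA⟩
      exact ⟨A, hA⟩
  have hEW : EW (achievementSet x) (idealAchievementSet I x) := by
    rw [hX]
    by_cases hs : Summable fun i => |x i|
    · exact EW_abs hs hJ
    · exact Pool.Agent.V1197.AS.EW_cond hJ hL hs
  have hsub : idealAchievementSet I x ⊆ achievementSet x := by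
    rintro s ⟨A, _, hA⟩
    exact ⟨A, hA⟩
  set X := achievementSet x with hXdef
  set S₀ : Set X := Subtype.val ⁻¹' (idealAchievementSet I x) with hS₀
  have himg : Subtype.val '' S₀ = idealAchievementSet I x := by
    rw [hS₀, Subtype.image_preimage_coe]
    exact inter_eq_right.2 hsub
  obtain ⟨U, hU, hSU⟩ := hB.residualEq_isOpen
  by_cases hdense : Dense U
  · right
    have h1 : U ∈ residual X := residual_of_dense_open hU hdense
    filter_upwards [h1, hSU.mem_iff] with z hz hz2
    exact hz2.2 hz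
  · left
    obtain ⟨V₀, hV₀, hne, hVU⟩ : ∃ V₀ : Set X, IsOpen V₀ ∧ V₀.Nonempty ∧ V₀ ∩ U = ∅ := by
      rw [dense_iff_inter_open] at hdense
      push Not at hdense
      obtain ⟨V₀, h1, h2, h3⟩ := hdense
      exact ⟨V₀, h1, h2, h3⟩
    obtain ⟨V, hV, hVV₀⟩ := isOpen_induced_iff.1 hV₀
    obtain ⟨v, hv⟩ := hne
    have hmeag : IsMeagre (S₀ ∩ V₀) := by
      rw [IsMeagre]
      filter_upwards [hSU.mem_iff] with z hz
      rintro ⟨hz1, hz2⟩
      have h3 : z ∈ U := hz.1 hz1
      have : z ∈ V₀ ∩ U := ⟨hz2, h3⟩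
      rw [hVU] at this
      exact this
    rw [← Pool.Agent.V1197.AS.RM_iff] at hmeag ⊢
    rw [himg]
    refine hEW V hV ⟨v, ?_, v.2⟩ (hmeag.mono ?_)
    · rw [← hVV₀] at hv
      exact hv
    · rintro z ⟨⟨hz1, hz2⟩, hz3⟩
      refine ⟨⟨z, hz3⟩, ⟨hz1, ?_⟩, rfl⟩
      rw [← hVV₀]
      exact hz2

end Pool.Agent.Results.MP_dc2775_an.MeagerOrComeager
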